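import Pool.Agent.Lib.MP_ab96eb_gt.All

/-!
# MP_ab96eb_gt : the topological complexity of a connected sum of aspherical 3-manifolds is 7

Let `M false` and `M true` be aspherical 3-manifolds (each has a regular covering with contractible
total space) and let `X` be a closed connected 3-manifold which is a connected sum of `M false` and
`M true` and which is oriented by a 3-cycle `c`. Then `TC X = 7` (non-reduced normalisation).

Idea of the lower bound: degree three group cocycles `α`, `β` of the two factors (nonzero on the
two pieces of `X`) are joined to a degree six cocycle of the group `G false * G true` which is
defined with the tree of the free product and which is finite although it is a sum over infinitely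
many geodesics. Pulled back to `X × X` by the difference of the two coordinates it is, up to a
factor, alternating, hence vanishes on simplices that lie in sets with a motion planner (six
planners are one too few for a simplex with seven vertices), but it is nonzero on the fundamental
cycle of `X × X`.
-/

set_option autoImplicit false

namespace Pool.Agent.Results.MP_ab96eb_gt.TCConnectedSum

open TCMM MPb00168

/-- The topological complexity of a closed connected oriented 3-manifold which is a connected sum
of two aspherical 3-manifolds is 7. -/
theorem result (G : Bool → Type) [∀ i, Group (G i)]
    (M : Bool → Type) [∀ i, TopologicalSpace (M i)] [∀ i, T2Space (M i)]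
    (A : ∀ i, GCov (G i) (M i)) [∀ i, ContractibleSpace (A i).T]
    (X : Type) [TopologicalSpace X] [T2Space X] [CompactSpace X] [ConnectedSpace X]
    (hX : ∀ x : X, ∃ f : R3 → X, Topology.IsOpenEmbedding f ∧ x ∈ Set.range f)
    (S : ConnSum M X) (c : Chain X 3) (hc : IsOrient c) : TC X = 7 := by
  have : PathConnectedSpace X := pathConnected_of_charts hX
  have : TopologicalSpace.MetrizableSpace X := metrizable_of_charts hX
  let _ : MetricSpace X := TopologicalSpace.metrizableSpaceMetric X
  exact le_antisymm (TC_le_seven X hX) (specMainAll G M A X S c hc)

end Pool.Agent.Results.MP_ab96eb_gt.TCConnectedSum
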